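import Pool.Agent.Helper311.TF.Count5

set_option autoImplicit false

namespace Pool.Agent.Results.MP_7aba48_co.LargeDegree

open H311TF

/-- Every finite triangle-free graph `G` of maximum degree `Δ ≥ 93` can be properly coloured from
any lists of size at least `⌈Δ/2⌉ + 2`, hence is `(⌈Δ/2⌉ + 2)`-colourable; and if `Δ ≥ 98` then
`⌈(Δ + 3)/2⌉` colours (lists of that size) suffice, which is Reed's bound. -/
theorem result :
    (∀ (V : Type) [Fintype V] (G : SimpleGraph V) [DecidableRel G.Adj], G.CliqueFree 3 →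
      93 ≤ G.maxDegree →
        G.Colorable ((G.maxDegree + 1) / 2 + 2) ∧
        ∀ (α : Type) (L : V → Finset α), (∀ v, (G.maxDegree + 1) / 2 + 2 ≤ (L v).card) →
          ∃ C : V → α, (∀ v, C v ∈ L v) ∧ ∀ u v, G.Adj u v → C u ≠ C v) ∧
    (∀ (V : Type) [Fintype V] (G : SimpleGraph V) [DecidableRel G.Adj], G.CliqueFree 3 →
      98 ≤ G.maxDegree →
        G.Colorable ((G.maxDegree + 4) / 2) ∧
        ∀ (α : Type) (L : V → Finset α), (∀ v, (G.maxDegree + 4) / 2 ≤ (L v).card) →
          ∃ C : V → α, (∀ v, C v ∈ L v) ∧ ∀ u v, G.Adj u v → C u ≠ C v) := by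
  have deg : ∀ (V : Type) [Fintype V] (G : SimpleGraph V) [DecidableRel G.Adj],
      1 ≤ G.maxDegree → ∀ v, (Nb G Finset.univ v).card ≤ (G.maxDegree - 1) + 1 := by
    intro V _ G _ h1 v
    have h2 := G.degree_le_maxDegree v
    have h3 : (Nb G Finset.univ v).card ≤ G.degree v := by
      rw [← SimpleGraph.card_neighborFinset_eq_degree]
      refine Finset.card_le_card (fun x hx => ?_)
      rw [SimpleGraph.mem_neighborFinset]
      exact (mem_Nb.mp hx).2
    omega
  have col : ∀ (V : Type) [Fintype V] (G : SimpleGraph V) (k : ℕ),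
      (∀ (α : Type) (L : V → Finset α), (∀ v, k ≤ (L v).card) →
          ∃ C : V → α, (∀ v, C v ∈ L v) ∧ ∀ u v, G.Adj u v → C u ≠ C v) → G.Colorable k := by
    intro V _ G k h
    obtain ⟨C, _, hC⟩ := h (Fin k) (fun _ => Finset.univ) (fun _ => by simp)
    exact ⟨SimpleGraph.Coloring.mk C (fun {u v} huv => hC u v huv)⟩
  refine ⟨?_, ?_⟩
  · intro V _ G _ hG hΔ
    have key : ∀ (α : Type) (L : V → Finset α), (∀ v, (G.maxDegree + 1) / 2 + 2 ≤ (L v).card) →
          ∃ C : V → α, (∀ v, C v ∈ L v) ∧ ∀ u v, G.Adj u v → C u ≠ C v := by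
      intro α L hL
      refine main3 L hG (deg V G (by omega)) hL (Or.inl ⟨by omega, by omega⟩)
    exact ⟨col V G _ key, key⟩
  · intro V _ G _ hG hΔ
    have key : ∀ (α : Type) (L : V → Finset α), (∀ v, (G.maxDegree + 4) / 2 ≤ (L v).card) →
          ∃ C : V → α, (∀ v, C v ∈ L v) ∧ ∀ u v, G.Adj u v → C u ≠ C v := by
      intro α L hL
      refine main3 L hG (deg V G (by omega)) hL (Or.inr ⟨by omega, by omega⟩)
    exact ⟨col V G _ key, key⟩

end Pool.Agent.Results.MP_7aba48_co.LargeDegree
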